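import Pool.Agent.W759.TR.Final
import Pool.Agent.W759.FD.All
import Pool.Agent.W743.TR.T1
import Pool.Agent.W857.TR.T2
import Pool.Agent.W723.TR.T3
import Pool.Agent.W94.TR.T4a
import Pool.Agent.W716.TR.T4b
import Pool.Agent.W373.TR.T4
import Pool.Agent.W89.TR.T5
import Pool.Agent.W778.TR.T6
import Pool.Agent.W724.TR.T7
import Pool.Agent.H867.TR.T8
import Pool.Agent.W199.TR.T9
import Pool.Agent.W513.TR.T12

namespace Pool.Agent.W759.TR

open MeasureTheory ProbabilityTheory Set Filter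
open scoped ENNReal Topology

theorem h0 : H0 := ⟨Pool.Agent.W759.FD.p6a, Pool.Agent.W750.FD.t6b, Pool.Agent.W759.FD.p6c,
  Pool.Agent.W759.FD.p6d⟩

theorem main : ¬ (∀ (V : Type) (G : SimpleGraph V) (d : ℕ), 3 ≤ d → G.IsTree →
    (∀ v : V, (G.neighborSet v).ncard = d) →
    ∀ (S : Type) [MeasurableSpace S] [StandardBorelSpace S] (μ : Measure (V → S)),
      IsProbabilityMeasure μ →
      (∀ φ : G ≃g G, μ.map (fun x : V → S => fun v => x (φ v)) = μ) →
      (∃ k : ℕ, ∀ A B : Set V, (∀ a ∈ A, ∀ b ∈ B, k < G.dist a b) →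
        Indep (MeasurableSpace.comap (fun x : V → S => fun a : A => x a) inferInstance)
          (MeasurableSpace.comap (fun x : V → S => fun b : B => x b) inferInstance) μ) →
      ∃ F : (V → unitInterval) → (V → S), Measurable F ∧
        (Measure.infinitePi (fun _ : V => (volume : Measure unitInterval))).map F = μ ∧
        (∀ φ : G ≃g G, ∀ᵐ y ∂(Measure.infinitePi (fun _ : V => (volume : Measure unitInterval))),
          F (fun v => y (φ v)) = fun v => F y (φ v)) ∧
        (∀ᵐ y ∂(Measure.infinitePi (fun _ : V => (volume : Measure unitInterval))),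
          ∀ v : V, ∃ r : ℕ, ∀ y' : V → unitInterval,
            (∀ u : V, G.dist v u ≤ r → y' u = y u) → F y' v = F y v)) := by
  have t2 : T2 := Pool.Agent.W857.TR.t2
  have t4 := Pool.Agent.W373.TR.t4 h0 t2 Pool.Agent.W94.TR.t4a Pool.Agent.W716.TR.t4b
  exact final h0 Pool.Agent.W743.TR.t1 t2
    (fun φ => Pool.Agent.W723.TR.t3 h0 t2 _ G4 φ)
    (fun A B h => Pool.Agent.W89.TR.t5 h0 t2 t4 _ G4 A B h)
    Pool.Agent.W724.TR.t7 Pool.Agent.H867.TR.t8
    (t10 Pool.Agent.W300.FD.t1 (Pool.Agent.W397.FDP3.t3 Pool.Agent.W371.FD.t2)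
      Pool.Agent.W199.TR.T9.t9 Pool.Agent.W857.TR.measurableSet_EL
      (Pool.Agent.W778.TR.T6.t6a h0 t2) (Pool.Agent.W778.TR.T6.t6b h0 t2))
    (Pool.Agent.W513.TR.t12 h0 t2 Pool.Agent.W743.TR.t1)

end Pool.Agent.W759.TR
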