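import Pool.Agent.W759.TR.Defs
import Pool.Agent.W759.FD.Core

namespace Pool.Agent.W759.TR

open MeasureTheory ProbabilityTheory Set Filter
open scoped ENNReal Topology
open Pool.Agent.W759.FD (IsSign chsh blk hs house coins coin sg rs isSign_blk measurable_blk
  measurableSet_hs)

variable {V : Type}

/-- Block sign number `k` of copy `c`, read along `γ`. -/
noncomputable def chiT (n k c : ℕ) (w : List Lab) (γ : ℕ → V) (x : V → S1) : ℝ :=
  blk (n + 1) k (rdT n c w γ x)

theorem measurable_rdT (n c : ℕ) (w : List Lab) (γ : ℕ → V) :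
    Measurable (rdT (V := V) n c w γ) := by
  unfold rdT
  exact measurable_pi_lambda _ (fun j =>
    (measurable_pi_apply _).comp (measurable_snd.comp (measurable_pi_apply _)))

theorem measurable_chiT (n k c : ℕ) (w : List Lab) (γ : ℕ → V) :
    Measurable (chiT (V := V) n k c w γ) :=
  (measurable_blk _ _).comp (measurable_rdT _ _ _ _)

theorem isSign_chiT (n k c : ℕ) (w : List Lab) (γ : ℕ → V) (x : V → S1) :
    IsSign (chiT n k c w γ x) := isSign_blk _ _ _

theorem chiT_congr (n k c : ℕ) (w : List Lab) (γ : ℕ → V) (x x' : V → S1)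
    (h : ∀ j : ℕ, k * (n + 1) ≤ j → j < (k + 1) * (n + 1) → x (γ j) = x' (γ j)) :
    chiT n k c w γ x = chiT n k c w γ x' := by
  unfold chiT blk rdT
  refine Finset.prod_congr rfl (fun j hj => ?_)
  rw [Finset.mem_Ico] at hj
  rw [h j hj.1 hj.2]

theorem measurable_glueV {T : Type} [MeasurableSpace T] (L R : Set V) :
    Measurable (glueV (T := T) L R) := by
  unfold glueV
  refine measurable_pi_lambda _ (fun i => ?_)
  split_ifs
  · exact (measurable_pi_apply i).comp measurable_fst
  · exact (measurable_pi_apply i).comp (measurable_snd.comp measurable_snd)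
  · exact (measurable_pi_apply i).comp (measurable_fst.comp measurable_snd)

/-- A localized Bessel lemma. -/
theorem bessel_on (h1 : Pool.Agent.W759.FD.P1.{0}) {Ω : Type} [MeasurableSpace Ω] (P : Measure Ω)
    [IsProbabilityMeasure P] (E : Set Ω) (hE : MeasurableSet E) (x : ℕ → Ω → ℝ)
    (hx : ∀ c, Measurable (x c)) (hs : ∀ c ω, IsSign (x c ω))
    (ho : ∀ c c', c ≠ c' → ∫ ω in E, x c ω * x c' ω ∂P = 0) (ζ : Ω → ℝ) (hζ : Measurable ζ)
    (hζ1 : ∀ ω, |ζ ω| ≤ 1) : Tendsto (fun c => ∫ ω in E, ζ ω * x c ω ∂P) atTop (𝓝 0) := by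
  by_cases h0 : P E = 0
  · have : ∀ c, ∫ ω in E, ζ ω * x c ω ∂P = 0 := fun c => by
      rw [Measure.restrict_eq_zero.mpr h0, integral_zero_measure]
    simp [this]
  · have hP : IsProbabilityMeasure (ProbabilityTheory.cond P E) := cond_isProbabilityMeasure h0
    have hint : ∀ F : Ω → ℝ, ∫ ω, F ω ∂(ProbabilityTheory.cond P E) =
        ((P E)⁻¹).toReal * ∫ ω in E, F ω ∂P := by
      intro F
      unfold ProbabilityTheory.cond
      rw [integral_smul_measure, smul_eq_mul]
    have key := h1 Ω (ProbabilityTheory.cond P E) x hx hs (by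
      intro c c' hcc
      rw [hint, ho c c' hcc, mul_zero]) ζ hζ hζ1
    have key2 : Tendsto (fun c => (((P E)⁻¹).toReal)⁻¹ *
        ∫ ω, ζ ω * x c ω ∂(ProbabilityTheory.cond P E)) atTop (𝓝 0) := by
      simpa using key.const_mul ((((P E)⁻¹).toReal)⁻¹)
    refine key2.congr (fun c => ?_)
    have hne : ((P E)⁻¹).toReal ≠ 0 := by
      rw [ENNReal.toReal_ne_zero]
      exact ⟨ENNReal.inv_ne_zero.mpr (measure_ne_top P E), ENNReal.inv_ne_top.mpr h0⟩
    rw [hint, ← mul_assoc, inv_mul_cancel₀ hne, one_mul]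

theorem t10 (h1 : Pool.Agent.W759.FD.P1.{0}) (h3 : Pool.Agent.W759.FD.P3.{0}) (h9 : T9)
    (hEL : ∀ (V : Type) [Countable V] (G : SimpleGraph V) (N : ℕ) (w : List Lab) (γ : ℕ → V),
      MeasurableSet (EL G N w γ))
    (h6a : ∀ (V : Type) [Countable V] (G : SimpleGraph V) (n : ℕ) (w : List Lab) (γ : ℕ → V),
      ∀ᵐ x ∂(muT G), x ∈ EL G (4 * (n + 1)) w γ → ∀ c, rdT n c w γ x ∈ hs (n + 1))
    (h6b : ∀ (V : Type) [Countable V] (G : SimpleGraph V) (n : ℕ)
      (w : List Lab) (γ : ℕ → V) (k c c' : ℕ), (k = 0 ∨ k = 3) → c ≠ c' →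
      ∫ x in EL G (4 * (n + 1)) w γ,
        blk (n + 1) k (rdT n c w γ x) * blk (n + 1) k (rdT n c' w γ x) ∂(muT G) = 0) :
    T10 := by
  intro V _ G hconn T _ lam _ Φ hΦm hmap r g hgm hgr w γ hγ
  set n : ℕ := 2 * r with hn
  have hP : IsProbabilityMeasure (iidV V lam) := by unfold iidV; infer_instance
  set C : Set (V → T) := {y | (∀ j < 4 * (n + 1), Φ y (γ j) = g (γ j) y)} with hC
  set E : Set (V → T) := {y | Φ y ∈ EL G (4 * (n + 1)) w γ} with hEdef
  have hEm : MeasurableSet E := hΦm (hEL V G _ w γ)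
  have hCm : MeasurableSet C := by
    have : C = ⋂ j ∈ Finset.range (4 * (n + 1)), {y | Φ y (γ j) = g (γ j) y} := by
      ext y; simp [hC]
    rw [this]
    exact Finset.measurableSet_biInter _ (fun j _ =>
      measurableSet_eq_fun ((measurable_pi_apply _).comp hΦm) (hgm _))
  -- the null set where the constraint fails
  set Z : Set (V → T) := {y | y ∈ E → ∀ c : ℕ, rdT n c w γ (Φ y) ∈ hs (n + 1)} with hZ
  have hZ1 : ∀ᵐ y ∂(iidV V lam), y ∈ Z := by
    have := h6a V G n w γ
    rw [← hmap] at this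
    exact ae_of_ae_map hΦm.aemeasurable this
  have hZm : MeasurableSet Z := by
    have : Z = Eᶜ ∪ ⋂ c : ℕ, (fun y => rdT n c w γ (Φ y)) ⁻¹' (hs (n + 1)) := by
      ext y
      simp only [hZ, mem_ofPred_eq, mem_union, mem_compl_iff, mem_iInter, mem_preimage]
      tauto
    rw [this]
    exact hEm.compl.union (MeasurableSet.iInter (fun c =>
      ((measurable_rdT n c w γ).comp hΦm) (measurableSet_hs _)))
  set C' : Set (V → T) := (C ∩ E) ∩ Z with hC'
  have hC'm : MeasurableSet C' := (hCm.inter hEm).inter hZm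
  have hgoal : (iidV V lam) {y | (∀ j < 4 * (n + 1), Φ y (γ j) = g (γ j) y) ∧
      Φ y ∈ EL G (4 * (n + 1)) w γ} = (iidV V lam) C' := by
    refine measure_congr ?_
    filter_upwards [hZ1] with y hy
    apply propext
    show (y ∈ C ∩ E) ↔ y ∈ (C ∩ E) ∩ Z
    simp [hy]
  rw [hgoal]
  set L : Set V := {u | ∃ j, j < n + 1 ∧ G.dist (γ j) u ≤ r} with hL
  set R : Set V := {u | ∃ j, 3 * (n + 1) ≤ j ∧ j < 4 * (n + 1) ∧ G.dist (γ j) u ≤ r} with hR
  have hsep : ∀ (i j : ℕ) (u : V), i ≤ j → j < 4 * (n + 1) → G.dist (γ i) u ≤ r →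
      G.dist (γ j) u ≤ r → j ≤ i + 2 * r := by
    intro i j u hij hj h1 h2
    have h3 := hconn.dist_triangle (u := γ i) (v := u) (w := γ j)
    rw [SimpleGraph.dist_comm (u := u), hγ i j hij (by omega)] at h3
    omega
  have hLR : Disjoint L R := by
    rw [Set.disjoint_left]
    rintro u ⟨i, hi, hiu⟩ ⟨j, hj, hj2, hju⟩
    have := hsep i j u (by omega) hj2 hiu hju
    omega
  have hglue := h9 V T lam L R hLR
  have hgm' : Measurable (glueV (T := T) L R) := measurable_glueV L R
  rw [← hglue, Measure.map_apply hgm' hC'm]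
  set Gx : (V → T) → (V → S1) := fun y v => g v y with hGx
  have hGxm : Measurable Gx := measurable_pi_lambda _ (fun v => hgm v)
  have hCG : ∀ (y : V → T), y ∈ C → ∀ k c : ℕ, k < 4 →
      chiT n k c w γ (Φ y) = chiT n k c w γ (Gx y) := by
    intro y hy k c hk
    refine chiT_congr n k c w γ _ _ (fun j hj1 hj2 => ?_)
    have hj3 : j < 4 * (n + 1) := by
      have : (k + 1) * (n + 1) ≤ 4 * (n + 1) := Nat.mul_le_mul_right _ (by omega)
      omega
    exact hy j hj3
  have hc0 : ∀ (q : (V → T) × (V → T) × (V → T)) (c : ℕ),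
      chiT n 0 c w γ (Gx (glueV L R q)) = chiT n 0 c w γ (Gx q.1) := by
    intro q c
    refine chiT_congr n 0 c w γ _ _ (fun j hj1 hj2 => ?_)
    refine hgr _ _ _ (fun u hu => ?_)
    have : u ∈ L := ⟨j, by omega, hu⟩
    simp [glueV, this]
  have hc1 : ∀ (q : (V → T) × (V → T) × (V → T)) (c : ℕ),
      chiT n 1 c w γ (Gx (glueV L R q)) =
        chiT n 1 c w γ (Gx (glueV L R (q.1, q.2.1, q.2.1))) := by
    intro q c
    refine chiT_congr n 1 c w γ _ _ (fun j hj1 hj2 => ?_)
    refine hgr _ _ _ (fun u hu => ?_)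
    have : u ∉ R := by
      rintro ⟨i, hi, hi2, hiu⟩
      have := hsep j i u (by omega) hi2 hu hiu
      omega
    simp [glueV, this]
  have hc2 : ∀ (q : (V → T) × (V → T) × (V → T)) (c : ℕ),
      chiT n 2 c w γ (Gx (glueV L R q)) =
        chiT n 2 c w γ (Gx (glueV L R (q.2.1, q.2.1, q.2.2))) := by
    intro q c
    refine chiT_congr n 2 c w γ _ _ (fun j hj1 hj2 => ?_)
    refine hgr _ _ _ (fun u hu => ?_)
    have : u ∉ L := by
      rintro ⟨i, hi, hiu⟩
      have := hsep i j u (by omega) (by omega) hiu hu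
      omega
    simp [glueV, this]
  have hc3 : ∀ (q : (V → T) × (V → T) × (V → T)) (c : ℕ),
      chiT n 3 c w γ (Gx (glueV L R q)) = chiT n 3 c w γ (Gx q.2.2) := by
    intro q c
    refine chiT_congr n 3 c w γ _ _ (fun j hj1 hj2 => ?_)
    refine hgr _ _ _ (fun u hu => ?_)
    have hRu : u ∈ R := ⟨j, hj1, by omega, hu⟩
    have hLu : u ∉ L := fun h => (Set.disjoint_left.mp hLR) h hRu
    simp [glueV, hRu, hLu]
  -- weak convergence on the triple space
  have hweak : ∀ k : ℕ, (k = 0 ∨ k = 3) →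
      ∀ ζ : (V → T) × (V → T) × (V → T) → ℝ, Measurable ζ → (∀ q, |ζ q| ≤ 1) →
      Tendsto (fun c => ∫ q in (glueV L R) ⁻¹' C', ζ q * chiT n k c w γ (Gx (glueV L R q))
        ∂((iidV V lam).prod ((iidV V lam).prod (iidV V lam)))) atTop (𝓝 0) := by
    intro k hk ζ hζ hζ1
    have hψm : MeasurableSet ((glueV (T := T) L R) ⁻¹' C') := hgm' hC'm
    have hψE : MeasurableSet ((glueV (T := T) L R) ⁻¹' E) := hgm' hEm
    have key := bessel_on h1 ((iidV V lam).prod ((iidV V lam).prod (iidV V lam)))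
      ((glueV (T := T) L R) ⁻¹' E) hψE
      (fun c q => chiT n k c w γ (Φ (glueV L R q)))
      (fun c => (measurable_chiT n k c w γ).comp (hΦm.comp hgm'))
      (fun c q => isSign_chiT _ _ _ _ _ _)
      (by
        intro c c' hcc
        have e1 : ∫ q in (glueV (T := T) L R) ⁻¹' E,
            chiT n k c w γ (Φ (glueV L R q)) * chiT n k c' w γ (Φ (glueV L R q))
            ∂((iidV V lam).prod ((iidV V lam).prod (iidV V lam))) =
            ∫ y in E, chiT n k c w γ (Φ y) * chiT n k c' w γ (Φ y) ∂(iidV V lam) := by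
          conv_rhs => rw [← hglue]
          rw [setIntegral_map hEm ?_ hgm'.aemeasurable]
          exact (((measurable_chiT n k c w γ).comp hΦm).mul
            ((measurable_chiT n k c' w γ).comp hΦm)).aestronglyMeasurable
        have e2 : ∫ y in E, chiT n k c w γ (Φ y) * chiT n k c' w γ (Φ y) ∂(iidV V lam) =
            ∫ x in EL G (4 * (n + 1)) w γ, chiT n k c w γ x * chiT n k c' w γ x
              ∂(muT G) := by
          rw [← hmap, setIntegral_map (hEL V G _ w γ) ?_ hΦm.aemeasurable]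
          · rfl
          · exact ((measurable_chiT n k c w γ).mul
              (measurable_chiT n k c' w γ)).aestronglyMeasurable
        rw [e1, e2]
        exact h6b V G n w γ k c c' hk hcc)
      (((glueV L R) ⁻¹' C').indicator ζ) (hζ.indicator hψm)
      (by
        intro q
        by_cases hq : q ∈ (glueV L R) ⁻¹' C'
        · rw [indicator_of_mem hq]; exact hζ1 q
        · rw [indicator_of_notMem hq]; simp)
    refine key.congr (fun c => ?_)
    rw [← integral_indicator hψm, ← integral_indicator hψE]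
    refine integral_congr_ae (ae_of_all _ (fun q => ?_))
    by_cases hq : q ∈ (glueV L R) ⁻¹' C'
    · have hqE : q ∈ (glueV (T := T) L R) ⁻¹' E := hq.1.2
      simp only [indicator_of_mem hq, indicator_of_mem hqE]
      rw [hCG (glueV L R q) hq.1.1 k c (by omega)]
    · by_cases hqE : q ∈ (glueV (T := T) L R) ⁻¹' E
      · simp only [indicator_of_notMem hq, indicator_of_mem hqE, zero_mul]
      · simp only [indicator_of_notMem hq, indicator_of_notMem hqE]
  refine h3 (V → T) (V → T) (V → T) (iidV V lam) (iidV V lam) (iidV V lam)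
    (fun c l => chiT n 0 c w γ (Gx l)) (fun c r => chiT n 3 c w γ (Gx r))
    (fun c l z => chiT n 1 c w γ (Gx (glueV L R (l, z, z))))
    (fun c z r => chiT n 2 c w γ (Gx (glueV L R (z, z, r))))
    ((glueV L R) ⁻¹' C')
    (fun c => (measurable_chiT n 0 c w γ).comp hGxm)
    (fun c => (measurable_chiT n 3 c w γ).comp hGxm)
    (fun c l => isSign_chiT _ _ _ _ _ _) (fun c l => isSign_chiT _ _ _ _ _ _)
    (fun c l z => isSign_chiT _ _ _ _ _ _) (fun c l z => isSign_chiT _ _ _ _ _ _)
    (hgm' hC'm) ?_ ?_ ?_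
  · intro c l z r' hq
    have hyC : glueV L R (l, z, r') ∈ C := hq.1.1
    have hyE : glueV L R (l, z, r') ∈ E := hq.1.2
    have hyZ : glueV L R (l, z, r') ∈ Z := hq.2
    have e := hyZ hyE c
    have e1 : chiT n 1 c w γ (Φ (glueV L R (l, z, r'))) *
        chiT n 2 c w γ (Φ (glueV L R (l, z, r'))) =
      chsh (chiT n 0 c w γ (Φ (glueV L R (l, z, r'))))
        (chiT n 3 c w γ (Φ (glueV L R (l, z, r')))) := e
    rw [hCG _ hyC 1 c (by norm_num), hCG _ hyC 2 c (by norm_num), hCG _ hyC 0 c (by norm_num),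
      hCG _ hyC 3 c (by norm_num), hc0, hc1, hc2, hc3] at e1
    exact e1
  · intro ζ hζ hζ1
    have := hweak 0 (Or.inl rfl) ζ hζ hζ1
    refine this.congr (fun c => ?_)
    refine integral_congr_ae (ae_of_all _ (fun q => ?_))
    simp only [hc0]
  · intro ζ hζ hζ1
    have := hweak 3 (Or.inr rfl) ζ hζ hζ1
    refine this.congr (fun c => ?_)
    refine integral_congr_ae (ae_of_all _ (fun q => ?_))
    simp only [hc3]

end Pool.Agent.W759.TR
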