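import Pool.Agent.W759.FD.Defs

namespace Pool.Agent.W759.TR

open MeasureTheory ProbabilityTheory Set Filter
open scoped ENNReal Topology
open Pool.Agent.W759.FD (IsSign chsh blk hs house coins coin sg rs)

/-- The generators of the free group on two letters. -/
def gen (s : Fin 2 × Bool) : FreeGroup (Fin 2) := FreeGroup.mk [s]

theorem gen_mul_gen (s : Fin 2 × Bool) : gen s * gen (s.1, !s.2) = 1 := by
  rcases s with ⟨i, b⟩
  simp only [gen, FreeGroup.mul_mk]
  exact FreeGroup.Red.exact.mpr ⟨[], Relation.ReflTransGen.single (FreeGroup.Red.Step.cons_not),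
    Relation.ReflTransGen.refl⟩

/-- The 4-regular tree, as the Cayley graph of the free group on two letters. -/
def G4 : SimpleGraph (FreeGroup (Fin 2)) where
  Adj g h := g ≠ h ∧ ∃ s, h = g * gen s
  symm := by
    constructor
    rintro g h ⟨hne, s, rfl⟩
    refine ⟨hne.symm, (s.1, !s.2), ?_⟩
    rw [mul_assoc, gen_mul_gen, mul_one]
  loopless := ⟨fun g h => h.1 rfl⟩

/-- The labels. -/
abbrev Lab : Type := Fin 96

/-- The uniform law on the labels. -/
noncomputable def lab : Measure Lab := uniformOn (univ : Set Lab)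

instance : IsProbabilityMeasure lab := by
  unfold lab
  exact isProbabilityMeasure_uniformOn finite_univ univ_nonempty

/-- Keys: scale, copy and word. -/
abbrev Key : Type := (ℕ × ℕ) × List Lab

/-- The state space. -/
abbrev S1 : Type := Lab × (Key × ℕ → Bool)

variable {V : Type}

/-- `u` is the unique neighbour of `v` with label `c`. -/
def IsU (G : SimpleGraph V) (U : V → Lab) (v : V) (c : Lab) (u : V) : Prop :=
  G.Adj v u ∧ U u = c ∧ ∀ u', G.Adj v u' → U u' = c → u' = u

/-- The entries `(u, j)` and `(v, j + 1)` are linked for the word `w`. -/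
def Link (G : SimpleGraph V) (U : V → Lab) (w : List Lab) (j : ℕ) (u v : V) : Prop :=
  IsU G U u (w.getD (j + 1) 0) v ∧ IsU G U v (w.getD j 0) u

open Classical in
/-- The first entry of the chain of the entry `(v, j)`, using only links inside `C`. -/
noncomputable def first (G : SimpleGraph V) (C : Set V) (U : V → Lab) (w : List Lab) :
    ℕ → V → V × ℕ
  | 0, v => (v, 0)
  | j + 1, v =>
    if h : ∃ u, u ∈ C ∧ v ∈ C ∧ Link G U w j u v then first G C U w j h.choose else (v, j + 1)

/-- Labels and houses. -/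
abbrev Env (V : Type) : Type := (V → Lab) × (Key × (V × ℕ) → ℕ → Bool)

/-- The process, where only links inside `C` are used. -/
noncomputable def XC (G : SimpleGraph V) (C : Set V) (ω : Env V) : V → S1 :=
  fun v => (ω.1 v, fun q => ω.2 (q.1, first G C ω.1 q.1.2 q.2 v) q.2)

/-- The law of the labels. -/
noncomputable def PU (V : Type) : Measure (V → Lab) := Measure.infinitePi (fun _ : V => lab)

/-- The law of the houses. -/
noncomputable def PH (V : Type) : Measure (Key × (V × ℕ) → ℕ → Bool) :=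
  Measure.infinitePi (fun k : Key × (V × ℕ) => house (k.1.1.1 + 1))

/-- The law of the environment. -/
noncomputable def PE (V : Type) : Measure (Env V) := (PU V).prod (PH V)

/-- The law of the process. -/
noncomputable def muT (G : SimpleGraph V) : Measure (V → S1) := (PE V).map (XC G univ)

/-- The house read along the path `γ` with the word `w`. -/
def rdT (n c : ℕ) (w : List Lab) (γ : ℕ → V) (x : V → S1) : ℕ → Bool :=
  fun j => (x (γ j)).2 (((n, c), w), j)

/-- The event that the entries along `γ` (for `j < N`) are linked. -/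
def EL (G : SimpleGraph V) (N : ℕ) (w : List Lab) (γ : ℕ → V) : Set (V → S1) :=
  {x | ∀ j, j + 1 < N → Link G (fun v => (x v).1) w j (γ j) (γ (j + 1))}

/-- The iid process with one-site law `lam` indexed by `V`. -/
noncomputable def iidV (V : Type) {T : Type} [MeasurableSpace T] (lam : Measure T) :
    Measure (V → T) := Measure.infinitePi (fun _ : V => lam)

open Classical in
/-- Glue three configurations along `L`, the rest, and `R`. -/
noncomputable def glueV {T : Type} (L R : Set V) (w : (V → T) × (V → T) × (V → T)) : V → T :=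
  fun v => if v ∈ L then w.1 v else if v ∈ R then w.2.2 v else w.2.1 v

/-- Houses are probability measures, satisfy the constraint, are 1-dependent, and the first and
the last block signs have mean zero (already proved). -/
def H0 : Prop := Pool.Agent.W759.FD.P6a ∧ Pool.Agent.W759.FD.P6b ∧ Pool.Agent.W759.FD.P6c ∧
  Pool.Agent.W759.FD.P6d

/-- The Cayley graph is the 4-regular tree. -/
def T1 : Prop := G4.IsTree ∧ ∀ v, (G4.neighborSet v).ncard = 4

/-- Measurability. -/
def T2 : Prop := ∀ (V : Type) [Countable V] (G : SimpleGraph V) (C : Set V),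
  Measurable (XC G C)

/-- Invariance under automorphisms. -/
def T3 : Prop := H0 → T2 → ∀ (V : Type) [Countable V] (G : SimpleGraph V) (φ : G ≃g G),
  (muT G).map (fun x : V → S1 => fun v => x (φ v)) = muT G

/-- Splitting houses along gaps does not change the law. -/
def T4a : Prop := H0 → ∀ (I E : Type) [Countable E] (sc : I → ℕ) (F1 F2 : E → I) (j : E → ℕ),
  (∀ e, sc (F1 e) = sc (F2 e)) → (∀ e e', F2 e = F2 e' → F1 e = F1 e') →
  (∀ e e', F1 e = F1 e' → F2 e ≠ F2 e' → 1 < |(j e : ℤ) - (j e' : ℤ)|) →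
  (Measure.infinitePi (fun i : I => house (sc i + 1))).map
      (fun (H : I → ℕ → Bool) (e : E) => H (F1 e) (j e)) =
  (Measure.infinitePi (fun i : I => house (sc i + 1))).map
      (fun (H : I → ℕ → Bool) (e : E) => H (F2 e) (j e))

/-- Combinatorics of chains. -/
def T4b : Prop := ∀ (V : Type) (G : SimpleGraph V) (C : Set V) (U : V → Lab) (w : List Lab)
  (v v' : V) (j j' : ℕ), v ∈ C → v' ∈ C →
  (first G C U w j v = first G C U w j' v' → first G univ U w j v = first G univ U w j' v') ∧
  (first G univ U w j v = first G univ U w j' v' → first G C U w j v ≠ first G C U w j' v' →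
    1 < |(j : ℤ) - (j' : ℤ)|)

/-- Cutting the links outside `C` does not change the law on `C`. -/
def T4 : Prop := H0 → T2 → T4a → T4b → ∀ (V : Type) [Countable V] (G : SimpleGraph V)
  (C : Set V), (PE V).map (fun ω => rs C (XC G univ ω)) = (PE V).map (fun ω => rs C (XC G C ω))

/-- The process is 2-dependent. -/
def T5 : Prop := H0 → T2 →
  (∀ (V : Type) [Countable V] (G : SimpleGraph V) (C : Set V),
    (PE V).map (fun ω => rs C (XC G univ ω)) = (PE V).map (fun ω => rs C (XC G C ω))) →
  ∀ (V : Type) [Countable V] (G : SimpleGraph V) (A B : Set V),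
    (∀ a ∈ A, ∀ b ∈ B, 2 < G.dist a b) →
    Indep (MeasurableSpace.comap (fun x : V → S1 => fun a : A => x a) inferInstance)
      (MeasurableSpace.comap (fun x : V → S1 => fun b : B => x b) inferInstance) (muT G)

/-- The constraint, read along a path. -/
def T6a : Prop := H0 → T2 → ∀ (V : Type) [Countable V] (G : SimpleGraph V) (n : ℕ)
  (w : List Lab) (γ : ℕ → V),
  ∀ᵐ x ∂(muT G), x ∈ EL G (4 * (n + 1)) w γ → ∀ c, rdT n c w γ x ∈ hs (n + 1)

/-- Orthogonality of block signs of different copies on the event `EL`. -/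
def T6b : Prop := H0 → T2 → ∀ (V : Type) [Countable V] (G : SimpleGraph V) (n : ℕ)
  (w : List Lab) (γ : ℕ → V) (k c c' : ℕ), (k = 0 ∨ k = 3) → c ≠ c' →
  ∫ x in EL G (4 * (n + 1)) w γ,
    blk (n + 1) k (rdT n c w γ x) * blk (n + 1) k (rdT n c' w γ x) ∂(muT G) = 0

/-- Percolation of the good vertices. -/
def T7 : Prop := ∀ (Ω : Type) [MeasurableSpace Ω] (P : Measure Ω) [IsProbabilityMeasure P]
  (τ : FreeGroup (Fin 2) → Ω → Ω), (∀ g, MeasurePreserving (τ g) P P) →
  (∀ g v y, τ g (τ v y) = τ (v * g) y) → (∀ y, τ 1 y = y) →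
  ∀ (Good : Set Ω), MeasurableSet Good → P Goodᶜ ≤ 1 / 4 → ∀ N : ℕ,
  ∃ γ : ℕ → FreeGroup (Fin 2), (∀ j, j < N → G4.Adj (γ j) (γ (j + 1))) ∧
    (∀ j, j + 2 ≤ N → γ (j + 2) ≠ γ j) ∧ 0 < P {y | ∀ j ≤ N, τ (γ j) y ∈ Good}

/-- Non-backtracking sequences in a tree are geodesic. -/
def T8 : Prop := ∀ (V : Type) (G : SimpleGraph V), G.IsTree → ∀ (γ : ℕ → V) (N : ℕ),
  (∀ j, j < N → G.Adj (γ j) (γ (j + 1))) → (∀ j, j + 2 ≤ N → γ (j + 2) ≠ γ j) →
  ∀ i j, i ≤ j → j ≤ N → G.dist (γ i) (γ j) = j - i

/-- Gluing preserves the iid law. -/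
def T9 : Prop := ∀ (V T : Type) [Countable V] [MeasurableSpace T] (lam : Measure T)
  [IsProbabilityMeasure lam] (L R : Set V), Disjoint L R →
  ((iidV V lam).prod ((iidV V lam).prod (iidV V lam))).map (glueV L R) = iidV V lam

/-- Two labels of neighbours agree with small probability. -/
def T12 : Prop := H0 → T2 → T1 → ∀ v : FreeGroup (Fin 2),
  (muT G4) {x | ∃ u u', G4.Adj v u ∧ G4.Adj v u' ∧ u ≠ u' ∧ (x u).1 = (x u').1} ≤ 1 / 8

/-- The coding lemma. -/
def T10 : Prop := ∀ (V : Type) [Countable V] (G : SimpleGraph V), G.Connected →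
  ∀ (T : Type) [MeasurableSpace T] (lam : Measure T) [IsProbabilityMeasure lam]
  (Φ : (V → T) → (V → S1)), Measurable Φ → (iidV V lam).map Φ = muT G →
  ∀ (r : ℕ) (g : V → (V → T) → S1), (∀ v, Measurable (g v)) →
  (∀ v (y y' : V → T), (∀ u, G.dist v u ≤ r → y u = y' u) → g v y = g v y') →
  ∀ (w : List Lab) (γ : ℕ → V),
  (∀ i j, i ≤ j → j ≤ 4 * (2 * r + 1) → G.dist (γ i) (γ j) = j - i) →
  (iidV V lam) {y | (∀ j < 4 * (2 * r + 1), Φ y (γ j) = g (γ j) y) ∧
    Φ y ∈ EL G (4 * (2 * r + 1)) w γ} = 0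

end Pool.Agent.W759.TR
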