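import Pool.Agent.W759.TR.Core

namespace Pool.Agent.W759.TR

open MeasureTheory ProbabilityTheory Set Filter
open scoped ENNReal Topology
open Pool.Agent.W759.FD (IsSign chsh blk hs house coins coin sg rs)

theorem adj_mul (g a b : FreeGroup (Fin 2)) : G4.Adj (g * a) (g * b) ↔ G4.Adj a b := by
  constructor
  · rintro ⟨hne, s, hs⟩
    refine ⟨fun h => hne (by rw [h]), s, ?_⟩
    rw [mul_assoc] at hs
    exact mul_left_cancel hs
  · rintro ⟨hne, s, hs⟩
    refine ⟨fun h => hne (mul_left_cancel h), s, ?_⟩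
    rw [mul_assoc, hs]

/-- Left multiplication as an automorphism. -/
def Lm (g : FreeGroup (Fin 2)) : G4 ≃g G4 where
  toEquiv := Equiv.mulLeft g
  map_rel_iff' := by
    intro a b
    exact adj_mul g a b

theorem dist_le_of_iso {V : Type} {G : SimpleGraph V} (hG : G.Connected) (φ : G ≃g G) (a b : V) :
    G.dist (φ a) (φ b) ≤ G.dist a b := by
  obtain ⟨p, hp⟩ := hG.exists_walk_length_eq_dist a b
  rw [← hp, ← SimpleGraph.Walk.length_map φ.toHom p]
  exact SimpleGraph.dist_le _

theorem dist_iso {V : Type} {G : SimpleGraph V} (hG : G.Connected) (φ : G ≃g G) (a b : V) :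
    G.dist (φ a) (φ b) = G.dist a b := by
  refine le_antisymm (dist_le_of_iso hG φ a b) ?_
  have := dist_le_of_iso hG φ.symm (φ a) (φ b)
  simpa using this

/-- The shift of configurations. -/
def tau {T : Type} (g : FreeGroup (Fin 2)) (y : FreeGroup (Fin 2) → T) :
    FreeGroup (Fin 2) → T := fun v => y (g * v)

theorem measurable_tau {T : Type} [MeasurableSpace T] (g : FreeGroup (Fin 2)) :
    Measurable (tau (T := T) g) := by
  unfold tau
  exact measurable_pi_lambda _ (fun v => measurable_pi_apply _)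

theorem tau_mp {T : Type} [MeasurableSpace T] (lam : Measure T) [IsProbabilityMeasure lam]
    (g : FreeGroup (Fin 2)) : MeasurePreserving (tau (T := T) g)
      (iidV (FreeGroup (Fin 2)) lam) (iidV (FreeGroup (Fin 2)) lam) := by
  refine ⟨measurable_tau g, ?_⟩
  unfold iidV
  exact Measure.map_infinitePi_infinitePi_of_inj (P := fun _ : FreeGroup (Fin 2) => lam)
    (f := fun i => g * i) (fun i j h => mul_left_cancel h)

theorem final (h0 : H0) (t1 : T1) (t2 : T2)
    (t3 : ∀ φ : G4 ≃g G4, (muT G4).map (fun x : FreeGroup (Fin 2) → S1 => fun v => x (φ v))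
      = muT G4)
    (t5 : ∀ (A B : Set (FreeGroup (Fin 2))), (∀ a ∈ A, ∀ b ∈ B, 2 < G4.dist a b) →
      Indep (MeasurableSpace.comap (fun x : FreeGroup (Fin 2) → S1 => fun a : A => x a)
        inferInstance)
      (MeasurableSpace.comap (fun x : FreeGroup (Fin 2) → S1 => fun b : B => x b)
        inferInstance) (muT G4))
    (t7 : T7) (t8 : T8) (t10 : T10)
    (t12 : ∀ v : FreeGroup (Fin 2),
      (muT G4) {x | ∃ u u', G4.Adj v u ∧ G4.Adj v u' ∧ u ≠ u' ∧ (x u).1 = (x u').1} ≤ 1 / 8) :
    ¬ (∀ (V : Type) (G : SimpleGraph V) (d : ℕ), 3 ≤ d → G.IsTree →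
    (∀ v : V, (G.neighborSet v).ncard = d) →
    ∀ (S : Type) [MeasurableSpace S] [StandardBorelSpace S] (μ : Measure (V → S)),
      IsProbabilityMeasure μ →
      (∀ φ : G ≃g G, μ.map (fun x : V → S => fun v => x (φ v)) = μ) →
      (∃ k : ℕ, ∀ A B : Set V, (∀ a ∈ A, ∀ b ∈ B, k < G.dist a b) →
        Indep (MeasurableSpace.comap (fun x : V → S => fun a : A => x a) inferInstance)
          (MeasurableSpace.comap (fun x : V → S => fun b : B => x b) inferInstance) μ) →
      ∃ F : (V → unitInterval) → (V → S), Measurable F ∧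
        (Measure.infinitePi (fun _ : V => (volume : Measure unitInterval))).map F = μ ∧
        (∀ φ : G ≃g G, ∀ᵐ y ∂(Measure.infinitePi (fun _ : V => (volume : Measure unitInterval))),
          F (fun v => y (φ v)) = fun v => F y (φ v)) ∧
        (∀ᵐ y ∂(Measure.infinitePi (fun _ : V => (volume : Measure unitInterval))),
          ∀ v : V, ∃ r : ℕ, ∀ y' : V → unitInterval,
            (∀ u : V, G.dist v u ≤ r → y' u = y u) → F y' v = F y v)) := by
  classical
  intro hall
  have hprob : IsProbabilityMeasure (muT G4) := by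
    have : ∀ k : Key × (FreeGroup (Fin 2) × ℕ), IsProbabilityMeasure (house (k.1.1.1 + 1)) :=
      fun k => h0.1 _ (Nat.succ_pos _)
    have : IsProbabilityMeasure (PH (FreeGroup (Fin 2))) := by unfold PH; infer_instance
    have : IsProbabilityMeasure (PU (FreeGroup (Fin 2))) := by unfold PU; infer_instance
    have : IsProbabilityMeasure (PE (FreeGroup (Fin 2))) := by unfold PE; infer_instance
    exact Measure.isProbabilityMeasure_map (t2 _ G4 univ).aemeasurable
  obtain ⟨F, hFm, hmap, heq, hfin⟩ := hall (FreeGroup (Fin 2)) G4 4 (by norm_num) t1.1 t1.2 S1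
    (muT G4) hprob t3 ⟨2, t5⟩
  have hconn : G4.Connected := t1.1.connected
  set P : Measure (FreeGroup (Fin 2) → unitInterval) :=
    iidV (FreeGroup (Fin 2)) (volume : Measure unitInterval) with hP
  have hPp : IsProbabilityMeasure P := by rw [hP]; unfold iidV; infer_instance
  have hmapP : P.map F = muT G4 := hmap
  set f : (FreeGroup (Fin 2) → unitInterval) → S1 := fun y => F y 1 with hf
  have hfm : Measurable f := (measurable_pi_apply 1).comp hFm
  set Φ : (FreeGroup (Fin 2) → unitInterval) → (FreeGroup (Fin 2) → S1) :=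
    fun y v => f (tau v y) with hΦ
  have hΦm : Measurable Φ := measurable_pi_lambda _ (fun v => hfm.comp (measurable_tau v))
  have hΦF : Φ =ᵐ[P] F := by
    have h1 : ∀ᵐ y ∂P, ∀ v : FreeGroup (Fin 2), F (tau v y) 1 = F y v := by
      rw [ae_all_iff]
      intro v
      filter_upwards [heq (Lm v)] with y hy
      have := congrFun hy 1
      have e2 : (Lm v) (1 : FreeGroup (Fin 2)) = v := mul_one v
      rw [e2] at this
      exact this
    filter_upwards [h1] with y hy
    funext v
    exact hy v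
  have hΦmap : P.map Φ = muT G4 := by rw [Measure.map_congr hΦF]; exact hmapP
  -- truncation
  set tr : ℕ → (FreeGroup (Fin 2) → unitInterval) → (FreeGroup (Fin 2) → unitInterval) :=
    fun r y u => if G4.dist 1 u ≤ r then y u else 0 with htr
  have htrm : ∀ r, Measurable (tr r) := by
    intro r
    refine measurable_pi_lambda _ (fun i => ?_)
    by_cases h : G4.dist 1 i ≤ r
    · simpa [tr, h] using measurable_pi_apply i
    · simp [tr, h]
  set D : ℕ → Set (FreeGroup (Fin 2) → unitInterval) := fun r =>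
    {y | ∀ y' : FreeGroup (Fin 2) → unitInterval, (∀ u, G4.dist 1 u ≤ r → y' u = y u) →
      F y' 1 = F y 1} with hD
  have hDmono : Monotone D := by
    intro a b hab y hy y' h
    exact hy y' (fun u hu => h u (hu.trans hab))
  have hDu : P (⋃ r, D r) = 1 := by
    have : ∀ᵐ y ∂P, y ∈ ⋃ r, D r := by
      filter_upwards [hfin] with y hy
      obtain ⟨r, hr⟩ := hy 1
      exact mem_iUnion.mpr ⟨r, hr⟩
    have h2 := measure_congr (μ := P) (s := ⋃ r, D r) (t := univ) (by
      filter_upwards [this] with y hy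
      apply propext
      show y ∈ (⋃ r, D r) ↔ y ∈ univ
      simp only [mem_univ, iff_true]
      exact hy)
    rw [h2, measure_univ]
  obtain ⟨r, hr⟩ : ∃ r, 7 / 8 < P (D r) := by
    by_contra hcon
    push Not at hcon
    have h1 : P (⋃ r, D r) = ⨆ r, P (D r) := hDmono.measure_iUnion
    rw [hDu] at h1
    have h2 : (⨆ r, P (D r)) ≤ 7 / 8 := iSup_le hcon
    rw [← h1] at h2
    have h3 : (7 : ℝ≥0∞) / 8 < 1 := by
      rw [ENNReal.div_lt_iff (by norm_num) (by norm_num)]
      norm_num
    exact absurd h2 (not_le.mpr h3)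
  set A : Set (FreeGroup (Fin 2) → unitInterval) := {y | f y = f (tr r y)} with hA
  have hAm : MeasurableSet A := measurableSet_eq_fun hfm (hfm.comp (htrm r))
  have hDA : D r ⊆ A := by
    intro y hy
    refine (hy (tr r y) (fun u hu => ?_)).symm
    simp [tr, hu]
  have hAc : P Aᶜ ≤ 1 / 8 := by
    have h1 : 7 / 8 < P A := hr.trans_le (measure_mono hDA)
    rw [prob_compl_eq_one_sub hAm]
    refine tsub_le_iff_right.mpr ?_
    calc (1 : ℝ≥0∞) = 1 / 8 + 7 / 8 := by
          rw [ENNReal.div_add_div_same]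
          rw [show (1 : ℝ≥0∞) + 7 = 8 by norm_num, ENNReal.div_self (by norm_num) (by norm_num)]
      _ ≤ 1 / 8 + P A := by gcongr
  set LB : Set (FreeGroup (Fin 2) → unitInterval) := Φ ⁻¹' {x | ∃ u u', G4.Adj 1 u ∧
    G4.Adj 1 u' ∧ u ≠ u' ∧ (x u).1 = (x u').1} with hLB
  have hLBm : MeasurableSet LB := by
    have : LB = ⋃ u : FreeGroup (Fin 2), ⋃ u' : FreeGroup (Fin 2),
        {y | (G4.Adj 1 u ∧ G4.Adj 1 u' ∧ u ≠ u') ∧ (Φ y u).1 = (Φ y u').1} := by
      ext y
      simp only [hLB, mem_preimage, mem_ofPred_eq, mem_iUnion]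
      constructor
      · rintro ⟨u, u', a, b, c, d⟩
        exact ⟨u, u', ⟨a, b, c⟩, d⟩
      · rintro ⟨u, u', ⟨a, b, c⟩, d⟩
        exact ⟨u, u', a, b, c, d⟩
    rw [this]
    refine MeasurableSet.iUnion (fun u => MeasurableSet.iUnion (fun u' => ?_))
    refine (MeasurableSet.const _).inter ?_
    exact measurableSet_eq_fun (measurable_fst.comp ((measurable_pi_apply u).comp hΦm))
      (measurable_fst.comp ((measurable_pi_apply u').comp hΦm))
  have hLBp : P LB ≤ 1 / 8 := by
    refine le_trans (Measure.le_map_apply hΦm.aemeasurable _) ?_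
    rw [hΦmap]
    exact t12 1
  set Good : Set (FreeGroup (Fin 2) → unitInterval) := A ∩ LBᶜ with hGood
  have hGm : MeasurableSet Good := hAm.inter hLBm.compl
  have hGp : P Goodᶜ ≤ 1 / 4 := by
    rw [hGood, compl_inter, compl_compl]
    calc P (Aᶜ ∪ LB) ≤ P Aᶜ + P LB := measure_union_le _ _
      _ ≤ 1 / 8 + 1 / 8 := add_le_add hAc hLBp
      _ = 1 / 4 := by
        rw [ENNReal.div_add_div_same, show (1 : ℝ≥0∞) + 1 = 2 by norm_num]
        rw [ENNReal.div_eq_div_iff (by norm_num) (by norm_num) (by norm_num) (by norm_num)]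
        norm_num
  obtain ⟨γ, hγ1, hγ2, hγ3⟩ := t7 _ P (fun g y => tau g y) (fun g => tau_mp _ g)
    (by
      intro g v y
      funext u
      simp only [tau]
      rw [mul_assoc])
    (by intro y; funext u; simp [tau])
    Good hGm hGp (4 * (2 * r + 1))
  have hdist := t8 _ G4 t1.1 γ (4 * (2 * r + 1)) hγ1 hγ2
  have key : ∀ w : List Lab, P {y | (∀ j < 4 * (2 * r + 1), Φ y (γ j) = f (tr r (tau (γ j) y))) ∧
      Φ y ∈ EL G4 (4 * (2 * r + 1)) w γ} = 0 := by
    intro w
    refine t10 _ G4 hconn unitInterval volume Φ hΦm hΦmap r (fun v y => f (tr r (tau v y)))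
      (fun v => hfm.comp ((htrm r).comp (measurable_tau v))) ?_ w γ
      (fun i j hij hj => hdist i j hij hj)
    intro v y y' h
    have : tr r (tau v y) = tr r (tau v y') := by
      funext u
      by_cases hu : G4.dist 1 u ≤ r
      · have h2 : G4.dist v (v * u) ≤ r := by
          have := dist_iso hconn (Lm v) 1 u
          have e1 : (Lm v) (1 : FreeGroup (Fin 2)) = v := mul_one v
          have e2 : (Lm v) u = v * u := rfl
          rw [e1, e2] at this
          rw [this]; exact hu
        simp only [tr, hu, if_true, tau]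
        exact h _ h2
      · simp [tr, hu]
    simp only [this]
  have hsub : {y | ∀ j ≤ 4 * (2 * r + 1), tau (γ j) y ∈ Good} ⊆
      ⋃ w : Fin (4 * (2 * r + 1)) → Lab,
        {y | (∀ j < 4 * (2 * r + 1), Φ y (γ j) = f (tr r (tau (γ j) y))) ∧
          Φ y ∈ EL G4 (4 * (2 * r + 1)) (List.ofFn w) γ} := by
    intro y hy
    rw [mem_iUnion]
    refine ⟨fun i => (Φ y (γ i)).1, ?_, ?_⟩
    · intro j hj
      exact (hy j hj.le).1
    · have hΦtau : ∀ v u, Φ (tau v y) u = Φ y (v * u) := by
        intro v u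
        simp only [hΦ]
        congr 1
        funext x
        simp only [tau]
        rw [mul_assoc]
      have hdis : ∀ j ≤ 4 * (2 * r + 1), ∀ u u', G4.Adj (γ j) u → G4.Adj (γ j) u' →
          (Φ y u).1 = (Φ y u').1 → u = u' := by
        intro j hj u u' hu hu' he
        by_contra hne
        apply (hy j hj).2
        refine ⟨(γ j)⁻¹ * u, (γ j)⁻¹ * u', ?_, ?_, ?_, ?_⟩
        · rw [← adj_mul (γ j)]; simpa using hu
        · rw [← adj_mul (γ j)]; simpa using hu'
        · intro h; exact hne (mul_left_cancel h)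
        · rw [hΦtau, hΦtau]; simpa using he
      have hw : ∀ j < 4 * (2 * r + 1),
          (List.ofFn (fun i : Fin (4 * (2 * r + 1)) => (Φ y (γ i)).1)).getD j 0 =
            (Φ y (γ j)).1 := by
        intro j hj
        rw [List.getD_eq_getElem?_getD, List.getElem?_ofFn]
        simp [hj]
      intro j hj
      refine ⟨⟨hγ1 j (by omega), ?_, ?_⟩, ⟨(hγ1 j (by omega)).symm, ?_, ?_⟩⟩
      · rw [hw (j + 1) hj]
      · intro u' hu' he
        rw [hw (j + 1) hj] at he
        exact hdis j (by omega) _ _ hu' (hγ1 j (by omega)) he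
      · rw [hw j (by omega)]
      · intro u' hu' he
        rw [hw j (by omega)] at he
        exact hdis (j + 1) (by omega) _ _ hu' (hγ1 j (by omega)).symm he
  have hnull : P (⋃ w : Fin (4 * (2 * r + 1)) → Lab,
        {y | (∀ j < 4 * (2 * r + 1), Φ y (γ j) = f (tr r (tau (γ j) y))) ∧
          Φ y ∈ EL G4 (4 * (2 * r + 1)) (List.ofFn w) γ}) = 0 :=
    measure_iUnion_null (fun w => key _)
  exact absurd (measure_mono_null hsub hnull) hγ3.ne'

end Pool.Agent.W759.TR
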